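import Pool.Agent.Helper2.MON.Defs
import Pool.Agent.Helper40.ZO.JCA

/-!
Project NT (MP_b8862a_ag): Jordan decomposition, tensors under powers of matrices, logarithms of unipotent matrices. The lemmas
are those of Helper_nt/MON/Lss.lean and Helper34/MON/Lun.lean.
-/

set_option linter.unusedSectionVars false

open Matrix

namespace MH

section aux

/-- an additive function on the nonzero complex numbers that does not vanish at a given element of infinite order -/
theorem exists_phi_nt {l : ℂ} (hl : l ≠ 0) (hne : ∀ N : ℕ, 0 < N → l ^ N ≠ 1) :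
    ∃ φ : Additive ℂˣ →+ ℚ, φ (Additive.ofMul (Units.mk0 l hl)) ≠ 0 := by
  set W : Submodule ℚ ℂ := Submodule.span ℚ {2 * (Real.pi : ℂ) * Complex.I} with hW
  have hlog : W.mkQ (Complex.log l) ≠ 0 := by
    rw [Submodule.mkQ_apply, Ne, Submodule.Quotient.mk_eq_zero, hW, Submodule.mem_span_singleton]
    rintro ⟨q, hq⟩
    refine hne q.den q.den_pos ?_
    rw [← Complex.exp_log hl, ← Complex.exp_nat_mul, ← hq]
    have h1 : (q.den : ℂ) * (q • (2 * (Real.pi : ℂ) * Complex.I)) = (q.num : ℤ) * (2 * (Real.pi : ℂ) * Complex.I) := by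
      rw [Rat.smul_def, ← mul_assoc]
      congr 1
      have h2 := Rat.mul_den_eq_num q
      have h3 : ((q * q.den : ℚ) : ℂ) = ((q.num : ℚ) : ℂ) := by rw [h2]
      push_cast at h3
      rw [mul_comm]
      exact h3
    rw [h1]
    exact Complex.exp_int_mul_two_pi_mul_I q.num
  obtain ⟨ψ, hψ⟩ : ∃ ψ : Module.Dual ℚ (ℂ ⧸ W), ψ (W.mkQ (Complex.log l)) ≠ 0 := by
    by_contra hcon
    push Not at hcon
    exact hlog ((Module.forall_dual_apply_eq_zero_iff ℚ _).1 hcon)
  refine ⟨{ toFun := fun z => ψ (W.mkQ (Complex.log ((Additive.toMul z : ℂˣ) : ℂ)))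
            map_zero' := ?_
            map_add' := ?_ }, hψ⟩
  · rw [toMul_zero, Units.val_one, Complex.log_one, map_zero, map_zero]
  · intro z w
    rw [toMul_add, Units.val_mul, ← map_add, ← map_add]
    congr 1
    rw [Submodule.mkQ_apply, Submodule.mkQ_apply, Submodule.Quotient.eq, hW, Submodule.mem_span_singleton]
    have hz : ((Additive.toMul z : ℂˣ) : ℂ) ≠ 0 := Units.ne_zero _
    have hw : ((Additive.toMul w : ℂˣ) : ℂ) ≠ 0 := Units.ne_zero _
    have h1 : Complex.exp (Complex.log (((Additive.toMul z : ℂˣ) : ℂ) * ((Additive.toMul w : ℂˣ) : ℂ))) =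
        Complex.exp (Complex.log ((Additive.toMul z : ℂˣ) : ℂ) + Complex.log ((Additive.toMul w : ℂˣ) : ℂ)) := by
      rw [Complex.exp_add, Complex.exp_log hz, Complex.exp_log hw, Complex.exp_log (mul_ne_zero hz hw)]
    obtain ⟨k, hk⟩ := Complex.exp_eq_exp_iff_exists_int.1 h1
    refine ⟨(k : ℚ), ?_⟩
    rw [hk, add_sub_cancel_left, Rat.smul_def]
    push_cast
    ring

/-- an exponential that is a polynomial -/
theorem poly_exp_nt {q : Polynomial ℂ} {c τ : ℂ} (hτ : τ ≠ 0) (h : ∀ j : ℕ, c ^ j * q.eval (j : ℂ) = τ) :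
    c = 1 := by
  have hc : c ≠ 0 := by
    rintro rfl
    have := h 1
    simp at this
    exact hτ this.symm
  have hq : q ≠ 0 := by
    rintro rfl
    have := h 0
    simp at this
    exact hτ this.symm
  have h1 : Polynomial.C c * q.comp (Polynomial.X + 1) - q = 0 := by
    refine Polynomial.eq_zero_of_infinite_isRoot _ ?_
    refine Set.Infinite.mono (s := Set.range (fun j : ℕ => (j : ℂ))) ?_
      (Set.infinite_range_of_injective Nat.cast_injective)
    rintro _ ⟨j, rfl⟩
    change Polynomial.eval _ _ = 0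
    rw [Polynomial.eval_sub, Polynomial.eval_mul, Polynomial.eval_C, Polynomial.eval_comp, Polynomial.eval_add,
      Polynomial.eval_X, Polynomial.eval_one, sub_eq_zero]
    have h2 := h (j + 1)
    rw [← h j, pow_succ, Nat.cast_add, Nat.cast_one, mul_assoc] at h2
    exact mul_left_cancel₀ (pow_ne_zero j hc) h2
  have h3 : (Polynomial.C c * q.comp (Polynomial.X + 1)).leadingCoeff = q.leadingCoeff := by
    rw [sub_eq_zero.1 h1]
  have h4 : (Polynomial.X + 1 : Polynomial ℂ).natDegree = 1 := by
    have := Polynomial.natDegree_X_add_C (1 : ℂ)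
    rwa [map_one] at this
  have h5 : (Polynomial.X + 1 : Polynomial ℂ).leadingCoeff = 1 := by
    have := Polynomial.leadingCoeff_X_add_C (1 : ℂ)
    rwa [map_one] at this
  rw [Polynomial.leadingCoeff_mul, Polynomial.leadingCoeff_C, Polynomial.leadingCoeff_comp (by rw [h4]; exact one_ne_zero),
    h5, one_pow, mul_one] at h3
  exact mul_right_cancel₀ (Polynomial.leadingCoeff_ne_zero.2 hq) (h3.trans (one_mul _).symm)

/-- the polynomial functions on the natural numbers -/
noncomputable def pf_nt : Subring (ℕ → ℂ) :=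
  (RingHom.pi (fun j : ℕ => Polynomial.evalRingHom (j : ℂ))).range

theorem pf_mem_nt {f : ℕ → ℂ} : f ∈ pf_nt ↔ ∃ q : Polynomial ℂ, ∀ j : ℕ, q.eval (j : ℂ) = f j := by
  unfold pf_nt
  rw [RingHom.mem_range]
  constructor
  · rintro ⟨q, hq⟩
    exact ⟨q, fun j => congrFun hq j⟩
  · rintro ⟨q, hq⟩
    exact ⟨q, funext hq⟩

theorem choose_mem_nt (i : ℕ) : (fun j : ℕ => ((j.choose i : ℕ) : ℂ)) ∈ pf_nt := by
  rw [pf_mem_nt]
  refine ⟨Polynomial.C ((i.factorial : ℂ)⁻¹) * descPochhammer ℂ i, fun j => ?_⟩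
  rw [Polynomial.eval_mul, Polynomial.eval_C, descPochhammer_eval_eq_descFactorial,
    Nat.descFactorial_eq_factorial_mul_choose]
  push_cast
  rw [← mul_assoc, inv_mul_cancel₀ (by exact_mod_cast i.factorial_ne_zero), one_mul]

theorem const_mem_nt (c : ℂ) : (fun _ : ℕ => c) ∈ pf_nt := by
  rw [pf_mem_nt]
  exact ⟨Polynomial.C c, fun j => Polynomial.eval_C⟩

variable {n : Type*} [Fintype n] [DecidableEq n]

/-- the entries of the powers of a unipotent matrix -/
theorem pow_mem_nt {u : Matrix n n ℂ} (hu : IsNilpotent (u - 1)) (x y : n) : (fun j : ℕ => (u ^ j) x y) ∈ pf_nt := by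
  obtain ⟨m, hm⟩ := hu
  have h1 : (fun j : ℕ => (u ^ j) x y) =
      ∑ i ∈ Finset.range m, (fun j : ℕ => ((j.choose i : ℕ) : ℂ)) * (fun _ : ℕ => ((u - 1) ^ i) x y) := by
    funext j
    have h2 : u ^ j = ∑ i ∈ Finset.range m, ((j.choose i : ℕ) : ℂ) • (u - 1) ^ i := by
      have h3 : u ^ j = ∑ i ∈ Finset.range (j + 1), ((j.choose i : ℕ) : ℂ) • (u - 1) ^ i := by
        conv_lhs => rw [show u = (u - 1) + 1 by abel, (Commute.one_right (u - 1)).add_pow]
        refine Finset.sum_congr rfl fun i _ => ?_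
        rw [one_pow, mul_one, ← Nat.cast_comm, ← nsmul_eq_mul, Nat.cast_smul_eq_nsmul]
      rw [h3]
      have h4 : ∀ a b : ℕ, (∀ i ∈ Finset.range b, i ∉ Finset.range a → ((j.choose i : ℕ) : ℂ) • (u - 1) ^ i = 0) →
          a ≤ b → ∑ i ∈ Finset.range a, ((j.choose i : ℕ) : ℂ) • (u - 1) ^ i =
            ∑ i ∈ Finset.range b, ((j.choose i : ℕ) : ℂ) • (u - 1) ^ i := by
        intro a b h5 h6
        exact Finset.sum_subset (Finset.range_mono h6) h5
      rcases le_total (j + 1) m with h | h
      · refine h4 _ _ (fun i _ h7 => ?_) h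
        rw [Finset.mem_range, not_lt] at h7
        rw [Nat.choose_eq_zero_of_lt (by omega), Nat.cast_zero, zero_smul]
      · refine (h4 _ _ (fun i _ h7 => ?_) h).symm
        rw [Finset.mem_range, not_lt] at h7
        rw [pow_eq_zero_of_le h7 hm, smul_zero]
    rw [Finset.sum_apply]
    simp only [Pi.mul_apply]
    rw [h2, Matrix.sum_apply]
    exact Finset.sum_congr rfl fun i _ => by rw [Matrix.smul_apply, smul_eq_mul]
  rw [h1]
  exact Subring.sum_mem _ fun i _ => Subring.mul_mem _ (choose_mem_nt i) (const_mem_nt _)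

/-- tensors under the powers of unipotent matrices -/
theorem act_mem_nt {κ : Type*} [Fintype κ] [DecidableEq κ] {U : κ → Matrix n n ℂ}
    (hU : ∀ k, IsNilpotent (U k - 1)) (t : (κ → n) → ℂ) (i : κ → n) :
    (fun j : ℕ => actF (fun k => U k ^ j) t i) ∈ pf_nt := by
  have h1 : (fun j : ℕ => actF (fun k => U k ^ j) t i) =
      ∑ x : κ → n, (∏ k, fun j : ℕ => (U k ^ j) (i k) (x k)) * (fun _ : ℕ => t x) := by
    funext j
    rw [Finset.sum_apply]
    simp only [Pi.mul_apply, Finset.prod_apply]
    rfl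
  rw [h1]
  exact Subring.sum_mem _ fun x _ => Subring.mul_mem _ (Subring.prod_mem _ fun k _ => pow_mem_nt (hU k) _ _)
    (const_mem_nt _)

/-- diagonal matrices on the slots -/
theorem act_diag_nt {κ : Type*} [Fintype κ] [DecidableEq κ] (d : κ → n → ℂ) (t : (κ → n) → ℂ) (i : κ → n) :
    actF (fun k => Matrix.diagonal (d k)) t i = (∏ k, d k (i k)) * t i := by
  unfold actF
  rw [Finset.sum_eq_single i]
  · congr 1
    exact Finset.prod_congr rfl fun k _ => Matrix.diagonal_apply_eq _ _
  · intro x _ hx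
    obtain ⟨k, hk⟩ := Function.ne_iff.1 hx
    rw [Finset.prod_eq_zero (Finset.mem_univ k), zero_mul]
    exact Matrix.diagonal_apply_ne _ (Ne.symm hk)
  · intro h
    exact absurd (Finset.mem_univ i) h

theorem dact_diag_nt {κ : Type*} [Fintype κ] [DecidableEq κ] (d : κ → n → ℂ) (t : (κ → n) → ℂ) (i : κ → n) :
    dact (fun k => Matrix.diagonal (d k)) t i = (∑ k, d k (i k)) * t i := by
  unfold dact
  rw [Finset.sum_apply, Finset.sum_mul]
  refine Finset.sum_congr rfl fun k _ => ?_
  have h1 : Function.update (fun _ => (1 : Matrix n n ℂ)) k (Matrix.diagonal (d k)) =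
      fun x => Matrix.diagonal (if x = k then d k else fun _ => 1) := by
    funext x
    by_cases h : x = k
    · subst h
      rw [Function.update_self, if_pos rfl]
    · rw [Function.update_of_ne h, if_neg h]
      rfl
  rw [h1, act_diag_nt]
  congr 1
  rw [Finset.prod_eq_single k]
  · rw [if_pos rfl]
  · intro x _ hx
    rw [if_neg hx]
  · intro h
    exact absurd (Finset.mem_univ k) h

/-- Jordan decomposition in an eigenbasis of the semisimple part -/
theorem exists_jordan_nt (g : GL n ℂ) : ∃ (P Pi u : Matrix n n ℂ) (μ : n → ℂˣ), P * Pi = 1 ∧ Pi * P = 1 ∧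
    Pi * (g : Matrix n n ℂ) * P = Matrix.diagonal (fun i => (μ i : ℂ)) * u ∧
    Matrix.diagonal (fun i => (μ i : ℂ)) * u = u * Matrix.diagonal (fun i => (μ i : ℂ)) ∧ IsNilpotent (u - 1) := by
  set f : (Module.End ℂ (n → ℂ))ˣ := Units.map (Matrix.toLinAlgEquiv' (R := ℂ) (n := n)).toMonoidHom g with hf
  obtain ⟨m, S, U, hJ⟩ := Pool.Agent.Helper40.ZO.exists_JC f
  obtain ⟨p, hp1, hp2⟩ := hJ.ss
  have hS : S.IsSemisimple := Module.End.isSemisimple_of_squarefree_aeval_eq_zero hp1 hp2
  have hint : DirectSum.IsInternal (fun μ : ℂ => S.eigenspace μ) :=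
    (DirectSum.isInternal_submodule_iff_iSupIndep_and_iSup_eq_top _).2
      ⟨S.eigenspaces_iSupIndep, hS.iSup_eigenspace_eq_top⟩
  let b0 := hint.collectedBasis (fun μ => Module.finBasis ℂ (S.eigenspace μ))
  let e := b0.indexEquiv (Pi.basisFun ℂ n)
  let b : Module.Basis n ℂ (n → ℂ) := b0.reindex e
  have hb : ∀ i, S (b i) = (e.symm i).1 • b i := by
    intro i
    have h1 : b i ∈ S.eigenspace (e.symm i).1 := by
      change b0.reindex e i ∈ _
      rw [Module.Basis.reindex_apply]
      exact hint.collectedBasis_mem _ _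
    exact Module.End.mem_eigenspace_iff.1 h1
  have hne : ∀ i, (e.symm i).1 ≠ 0 := by
    intro i h0
    have h1 := hb i
    rw [h0, zero_smul] at h1
    have h2 : (f : Module.End ℂ (n → ℂ)) (b i) = 0 := by
      rw [hJ.mul, hJ.comm, Module.End.mul_apply, h1, map_zero]
    have h3 : ((f⁻¹ : (Module.End ℂ (n → ℂ))ˣ) : Module.End ℂ (n → ℂ)) ((f : Module.End ℂ (n → ℂ)) (b i)) = b i := by
      rw [← Module.End.mul_apply, ← Units.val_mul, inv_mul_cancel, Units.val_one, Module.End.one_apply]
    rw [h2, map_zero] at h3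
    exact b.ne_zero i h3.symm
  let A := LinearMap.toMatrixAlgEquiv b
  have hA : ∀ L : Module.End ℂ (n → ℂ), A L = LinearMap.toMatrix b b L := fun L => rfl
  have hD : A S = Matrix.diagonal (fun i => (e.symm i).1) := by
    ext x y
    rw [hA, LinearMap.toMatrix_apply, hb, map_smul, Finsupp.smul_apply, smul_eq_mul, b.repr_self, Matrix.diagonal_apply,
      Finsupp.single_apply]
    by_cases h : x = y
    · subst h
      rw [if_pos rfl, if_pos rfl, mul_one]
    · rw [if_neg h, if_neg (Ne.symm h), mul_zero]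
  refine ⟨(Pi.basisFun ℂ n).toMatrix b, b.toMatrix (Pi.basisFun ℂ n), A U, fun i => Units.mk0 _ (hne i),
    Module.Basis.toMatrix_mul_toMatrix_flip _ _, Module.Basis.toMatrix_mul_toMatrix_flip _ _, ?_, ?_, ?_⟩
  · have h1 : A (f : Module.End ℂ (n → ℂ)) = b.toMatrix (Pi.basisFun ℂ n) * (g : Matrix n n ℂ) *
        (Pi.basisFun ℂ n).toMatrix b := by
      rw [hA, ← basis_toMatrix_mul_linearMap_toMatrix_mul_basis_toMatrix b (Pi.basisFun ℂ n) b (Pi.basisFun ℂ n)]
      congr 2
      change LinearMap.toMatrix' (Matrix.toLin' (g : Matrix n n ℂ)) = _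
      exact LinearMap.toMatrix'_toLin' _
    rw [← h1, hJ.mul, map_mul, hD]
    rfl
  · have h1 : A (S * U) = A (U * S) := congrArg A hJ.comm
    rw [map_mul, map_mul, hD] at h1
    exact h1
  · refine ⟨m, ?_⟩
    rw [← map_one A, ← map_sub, ← map_pow, hJ.nil, map_zero]

theorem core_nt {κ : Type*} [Fintype κ] [DecidableEq κ] {Gk Pk Qk Uk : κ → Matrix n n ℂ} {dk : κ → n → ℂˣ}
    (hPQ : ∀ k, Pk k * Qk k = 1) (hQP : ∀ k, Qk k * Pk k = 1)
    (hG : ∀ k, Qk k * Gk k * Pk k = Matrix.diagonal (fun x => (dk k x : ℂ)) * Uk k)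
    (hc : ∀ k, Commute (Matrix.diagonal (fun x => (dk k x : ℂ))) (Uk k)) (hU : ∀ k, IsNilpotent (Uk k - 1))
    {N : ℕ} {t : (κ → n) → ℂ} (ht : actF (fun k => Gk k ^ N) t = t) {i : κ → n} (hi : actF Qk t i ≠ 0) :
    (∏ k, dk k (i k)) ^ N = 1 := by
  set t' := actF Qk t with ht'
  have h1 : ∀ j : ℕ, actF (fun k => Gk k ^ (N * j)) t = t := by
    intro j
    induction j with
    | zero =>
      simp only [mul_zero, pow_zero]
      exact actF_one t
    | succ j ih =>
      have h2 : (fun k => Gk k ^ (N * (j + 1))) = fun k => Gk k ^ (N * j) * Gk k ^ N := by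
        funext k
        rw [mul_add, mul_one, pow_add]
      rw [h2, ← actF_mul, ht, ih]
  have h2 : ∀ (k : κ) (M : ℕ), Qk k * Gk k ^ M * Pk k =
      Matrix.diagonal (fun x => (dk k x : ℂ) ^ M) * Uk k ^ M := by
    intro k M
    have h3 : Qk k * Gk k ^ M * Pk k = (Qk k * Gk k * Pk k) ^ M := by
      induction M with
      | zero => rw [pow_zero, pow_zero, mul_one, hQP]
      | succ M ih =>
        rw [pow_succ, pow_succ, ← ih]
        calc Qk k * (Gk k ^ M * Gk k) * Pk k = Qk k * Gk k ^ M * 1 * Gk k * Pk k := by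
              simp only [mul_assoc, one_mul]
          _ = Qk k * Gk k ^ M * (Pk k * Qk k) * Gk k * Pk k := by rw [hPQ]
          _ = _ := by simp only [mul_assoc]
    rw [h3, hG, (hc k).mul_pow, Matrix.diagonal_pow]
    rfl
  have h4 : ∀ j : ℕ, ((∏ k, (dk k (i k) : ℂ)) ^ N) ^ j * actF (fun k => Uk k ^ (N * j)) t' i = t' i := by
    intro j
    have h5 : actF (fun k => Matrix.diagonal (fun x => (dk k x : ℂ) ^ (N * j))) (actF (fun k => Uk k ^ (N * j)) t') =
        t' := by
      rw [actF_mul, ht']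
      have h6 : (fun k => Matrix.diagonal (fun x => (dk k x : ℂ) ^ (N * j)) * Uk k ^ (N * j)) =
          fun k => (Qk k * Gk k ^ (N * j)) * Pk k := by
        funext k
        rw [h2]
      rw [h6, actF_mul]
      have h7 : (fun k => Qk k * Gk k ^ (N * j) * Pk k * Qk k) = fun k => Qk k * Gk k ^ (N * j) := by
        funext k
        rw [mul_assoc _ (Pk k), hPQ, mul_one]
      rw [h7, ← actF_mul, h1]
    have h8 := congrFun h5 i
    rw [act_diag_nt, Finset.prod_pow, pow_mul] at h8
    exact h8
  obtain ⟨q, hq⟩ := pf_mem_nt.1 (act_mem_nt hU t' i)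
  have h9 := poly_exp_nt (q := q.comp (Polynomial.C (N : ℂ) * Polynomial.X)) (c := (∏ k, (dk k (i k) : ℂ)) ^ N)
    (τ := t' i) hi (fun j => by
      rw [Polynomial.eval_comp, Polynomial.eval_mul, Polynomial.eval_C, Polynomial.eval_X, ← Nat.cast_mul, hq]
      exact h4 j)
  apply Units.ext
  rw [Units.val_pow_eq_pow_val, Units.coe_prod, h9, Units.val_one]

open Polynomial in
theorem poly_zero_nt {N : ℕ} (hN : 0 < N) {p : ℂ[X]} (h : ∀ k : ℕ, p.eval ((N * k : ℕ) : ℂ) = 0) : p = 0 := by
  apply Polynomial.eq_zero_of_infinite_isRoot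
  refine Set.infinite_of_injective_forall_mem (f := fun k : ℕ => ((N * k : ℕ) : ℂ)) ?_ fun k => h k
  intro a b hab
  have h1 : ((N * a : ℕ) : ℂ) = ((N * b : ℕ) : ℂ) := hab
  have h2 : N * a = N * b := Nat.cast_injective h1
  exact Nat.eq_of_mul_eq_mul_left hN h2

open Polynomial in
theorem mat_ext_nt {p q : Matrix n n ℂ[X]}
    (h : ∀ k : ℕ, p.map (evalRingHom (k : ℂ)) = q.map (evalRingHom (k : ℂ))) : p = q := by
  ext1 i j
  rw [← sub_eq_zero]
  refine poly_zero_nt one_pos fun k => ?_
  have h1 := congrFun (congrFun (h k) i) j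
  rw [one_mul, eval_sub, sub_eq_zero]
  exact h1

open Polynomial in
/-- the powers of a unipotent matrix are values of a polynomial -/
theorem interp_nt {v : Matrix n n ℂ} (hv : IsNilpotent v) :
    ∃ U : Matrix n n ℂ[X], ∀ k : ℕ, U.map (evalRingHom (k : ℂ)) = (1 + v) ^ k := by
  obtain ⟨r, hr⟩ := hv
  let ch : ℕ → ℂ[X] := fun j => C ((j.factorial : ℂ)⁻¹) * descPochhammer ℂ j
  have hch : ∀ j k : ℕ, (ch j).eval (k : ℂ) = (k.choose j : ℂ) := by
    intro j k
    change (C ((j.factorial : ℂ)⁻¹) * descPochhammer ℂ j).eval (k : ℂ) = _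
    rw [eval_mul, eval_C, descPochhammer_eval_eq_descFactorial, Nat.descFactorial_eq_factorial_mul_choose]
    push_cast
    rw [← mul_assoc, inv_mul_cancel₀ (by exact_mod_cast j.factorial_ne_zero), one_mul]
  have h1 : ∀ k : ℕ, (1 + v) ^ k = ∑ j ∈ Finset.range (k + 1), (k.choose j : ℂ) • v ^ j := by
    intro k
    rw [add_comm, (Commute.one_right v).add_pow]
    refine Finset.sum_congr rfl fun j _ => ?_
    rw [one_pow, mul_one, Nat.cast_smul_eq_nsmul, nsmul_eq_mul, Nat.cast_comm]
  have h2 : ∀ k : ℕ, ∑ j ∈ Finset.range (k + 1), (k.choose j : ℂ) • v ^ j =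
      ∑ j ∈ Finset.range r, (k.choose j : ℂ) • v ^ j := by
    intro k
    have e1 : ∑ j ∈ Finset.range (k + 1), (k.choose j : ℂ) • v ^ j =
        ∑ j ∈ Finset.range (k + 1 + r), (k.choose j : ℂ) • v ^ j := by
      refine Finset.sum_subset (Finset.range_mono (by omega)) fun j _ hj => ?_
      rw [Finset.mem_range, not_lt] at hj
      rw [Nat.choose_eq_zero_of_lt (by omega), Nat.cast_zero, zero_smul]
    have e2 : ∑ j ∈ Finset.range r, (k.choose j : ℂ) • v ^ j =
        ∑ j ∈ Finset.range (k + 1 + r), (k.choose j : ℂ) • v ^ j := by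
      refine Finset.sum_subset (Finset.range_mono (by omega)) fun j _ hj => ?_
      rw [Finset.mem_range, not_lt] at hj
      rw [pow_eq_zero_of_le hj hr, smul_zero]
    rw [e1, e2]
  refine ⟨∑ j ∈ Finset.range r, ch j • (v ^ j).map C, fun k => ?_⟩
  rw [h1, h2]
  ext1 x y
  rw [Matrix.map_apply, Matrix.sum_apply, Matrix.sum_apply, map_sum]
  refine Finset.sum_congr rfl fun j _ => ?_
  rw [Matrix.smul_apply, Matrix.smul_apply, Matrix.map_apply, smul_eq_mul, smul_eq_mul, map_mul, coe_evalRingHom,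
    hch, eval_C]

open Polynomial in
/-- the derivative at zero of an action -/
theorem der_actF_nt {κ : Type*} [Fintype κ] [DecidableEq κ] (A : κ → Matrix n n ℂ[X]) (t : (κ → n) → ℂ)
    (h1 : ∀ k, (A k).map (evalRingHom 0) = 1) (i : κ → n) :
    (derivative (actF A (fun j => C (t j)) i)).eval 0 =
      dact (fun k => (A k).map fun p => (derivative p).eval 0) t i := by
  unfold actF dact
  rw [derivative_sum, eval_finsetSum, Finset.sum_apply]
  simp_rw [actF_upd]
  rw [Finset.sum_comm]
  refine Finset.sum_congr rfl fun j _ => ?_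
  rw [derivative_mul, derivative_C, mul_zero, add_zero, eval_mul, eval_C, derivative_prod_finset, eval_finsetSum,
    Finset.sum_mul]
  refine Finset.sum_congr rfl fun k _ => ?_
  rw [eval_mul, eval_prod, Matrix.map_apply, ← Finset.erase_eq]
  have h2 : ∀ l, (A l (i l) (j l)).eval 0 = (1 : Matrix n n ℂ) (i l) (j l) := by
    intro l
    rw [← h1 l]
    rfl
  simp_rw [h2]
  ring

theorem slot_pow_nt {a b : ℕ} {g g' : Matrix n n ℂ} {t : (Fin a ⊕ Fin b → n) → ℂ}
    (ht : actF (slot a b g g') t = t) (k : ℕ) : actF (slot a b (g ^ k) (g' ^ k)) t = t := by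
  induction k with
  | zero =>
    conv_rhs => rw [← actF_one t]
    congr 1
    funext x
    rcases x with x | x
    · simp [slot]
    · simp [slot]
  | succ k ih =>
    conv_rhs => rw [← ih, ← ht, actF_mul]
    congr 1
    funext x
    rcases x with x | x
    · simp [slot, pow_succ]
    · simp only [slot, Sum.elim_inr]
      rw [← transpose_mul, pow_succ']


open Polynomial in
/-- the logarithm of a unipotent matrix -/
theorem exists_log_un {u u' : Matrix n n ℂ} (huu : u * u' = 1) (huu' : u' * u = 1) (hnil : IsNilpotent (u - 1)) :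
    ∃ X : Matrix n n ℂ, ∀ (a b : ℕ) (t : (Fin a ⊕ Fin b → n) → ℂ),
      (∀ N : ℕ, 0 < N → actF (slot a b (u ^ N) (u' ^ N)) t = t → dL a b t X = 0) ∧
      (dL a b t X = 0 → actF (slot a b u u') t = t) := by
  have hnil' : IsNilpotent (u' - 1) := by
    have h1 : u' - 1 = -(u' * (u - 1)) := by rw [mul_sub, huu', mul_one]; abel
    have h2 : Commute u' (u - 1) := by
      have h3 : Commute u' u := by rw [Commute, SemiconjBy, huu, huu']
      exact h3.sub_right (Commute.one_right _)
    rw [h1]
    exact (h2.isNilpotent_mul_left hnil).neg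
  obtain ⟨U, hU⟩ := interp_nt hnil
  obtain ⟨U', hU'⟩ := interp_nt hnil'
  simp only [add_sub_cancel] at hU hU'
  let D : Matrix n n ℂ[X] → Matrix n n ℂ := fun A => A.map fun p => (derivative p).eval 0
  have hD : ∀ A B : Matrix n n ℂ[X], D (A * B) = D A * B.map (evalRingHom 0) + A.map (evalRingHom 0) * D B := by
    intro A B
    ext i j
    simp only [D, Matrix.map_apply, Matrix.mul_apply, Matrix.add_apply, derivative_sum, eval_finsetSum, derivative_mul,
      eval_add, eval_mul, Finset.sum_add_distrib, coe_evalRingHom]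
  have hU0 : U.map (evalRingHom 0) = 1 := by
    have := hU 0
    rwa [Nat.cast_zero, pow_zero] at this
  have hU0' : U'.map (evalRingHom 0) = 1 := by
    have := hU' 0
    rwa [Nat.cast_zero, pow_zero] at this
  have hinv : U * U' = 1 := by
    refine mat_ext_nt fun k => ?_
    rw [Matrix.map_mul, hU, hU', Matrix.map_one _ (map_zero _) (map_one _)]
    have h3 : Commute u u' := by rw [Commute, SemiconjBy, huu, huu']
    rw [← h3.mul_pow, huu, one_pow]
  have hX' : D U' = -D U := by
    have h1 := hD U U'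
    rw [hinv, hU0, hU0', mul_one, one_mul] at h1
    have h2 : D (1 : Matrix n n ℂ[X]) = 0 := by
      ext i j
      simp only [D, Matrix.map_apply, Matrix.zero_apply, Matrix.one_apply]
      split_ifs <;> simp
    rw [h2] at h1
    exact (neg_eq_of_add_eq_zero_right h1.symm).symm
  refine ⟨D U, fun a b t => ?_⟩
  have hslot : ∀ x, (slot a b U U' x).map (evalRingHom 0) = 1 := by
    intro x
    rcases x with x | x
    · exact hU0
    · simp only [slot, Sum.elim_inr]
      rw [← Matrix.transpose_one, ← hU0']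
      rfl
  have hder : ∀ i, (derivative (actF (slot a b U U') (fun j => C (t j)) i)).eval 0 = dL a b t (D U) i := by
    intro i
    rw [der_actF_nt (slot a b U U') t hslot i, dL_apply]
    congr 2
    funext x
    rcases x with x | x
    · rfl
    · simp only [lslot, slot, Sum.elim_inr]
      rw [← Matrix.transpose_neg, ← hX']
      rfl
  have heval : ∀ (k : ℕ) (i), (actF (slot a b U U') (fun j => C (t j)) i).eval (k : ℂ) =
      actF (slot a b (u ^ k) (u' ^ k)) t i := by
    intro k i
    have h1 := actF_map (evalRingHom (k : ℂ)) (slot a b U U') (fun j => C (t j)) i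
    simp only [coe_evalRingHom, eval_C] at h1
    rw [← h1]
    have h2 : (fun x => (slot a b U U' x).map (eval (k : ℂ))) = slot a b (u ^ k) (u' ^ k) := by
      funext x
      rcases x with x | x
      · exact hU k
      · simp only [slot, Sum.elim_inr]
        rw [← hU' k]
        rfl
    rw [h2]
  constructor
  · intro N hN ht
    have hF : ∀ i, actF (slot a b U U') (fun j => C (t j)) i = C (t i) := by
      intro i
      rw [← sub_eq_zero]
      refine poly_zero_nt hN fun k => ?_
      rw [eval_sub, eval_C, sub_eq_zero, heval, pow_mul, pow_mul, slot_pow_nt ht k]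
    funext i
    rw [← hder i, hF i, derivative_C, eval_zero]
    rfl
  · intro h0
    set p : (Fin a ⊕ Fin b → n) → ℂ[X] := fun i => actF (slot a b U U') (fun j => C (t j)) i with hp
    have hcomp : ∀ (k : ℕ) (i), (p i).comp (Polynomial.X + C (k : ℂ)) =
        ∑ j, C (∏ x, slot a b (u ^ k) (u' ^ k) x (i x) (j x)) * p j := by
      intro k i
      rw [← sub_eq_zero]
      refine poly_zero_nt one_pos fun l => ?_
      rw [one_mul, eval_sub, sub_eq_zero, eval_comp, eval_add, eval_X, eval_C, eval_finsetSum]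
      have h1 : ((l : ℂ) + (k : ℂ)) = ((k + l : ℕ) : ℂ) := by push_cast; ring
      rw [h1]
      change (actF (slot a b U U') (fun j => C (t j)) i).eval _ = _
      rw [heval]
      have h2 : slot a b (u ^ (k + l)) (u' ^ (k + l)) = fun x => slot a b (u ^ k) (u' ^ k) x * slot a b (u ^ l) (u' ^ l) x := by
        funext x
        rcases x with x | x
        · exact pow_add u k l
        · simp only [slot, Sum.elim_inr]
          rw [← Matrix.transpose_mul, ← pow_add, add_comm]
      rw [h2, ← actF_mul]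
      unfold actF
      refine Finset.sum_congr rfl fun j _ => ?_
      rw [eval_mul, eval_C]
      congr 1
      exact (heval l j).symm
    have hzero : ∀ i, derivative (p i) = 0 := by
      intro i
      refine poly_zero_nt one_pos fun k => ?_
      rw [one_mul]
      have h1 := congrArg (fun q : ℂ[X] => (derivative q).eval 0) (hcomp k i)
      simp only [derivative_comp, derivative_add, derivative_X, derivative_C, add_zero, one_mul, eval_comp, eval_add,
        eval_X, eval_C, zero_add, derivative_sum, eval_finsetSum, derivative_mul, zero_mul, eval_mul] at h1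
      rw [h1]
      refine Finset.sum_eq_zero fun j _ => ?_
      have h2 : (derivative (p j)).eval 0 = 0 := by
        rw [hp, hder j, h0]
        rfl
      rw [h2, mul_zero]
    funext i
    have h1 := Polynomial.eq_C_of_derivative_eq_zero (hzero i)
    have h2 : (p i).eval ((1 : ℕ) : ℂ) = (p i).eval ((0 : ℕ) : ℂ) := by rw [h1, eval_C, eval_C]
    change (actF (slot a b U U') (fun j => C (t j)) i).eval _ = (actF (slot a b U U') (fun j => C (t j)) i).eval _ at h2
    rw [heval, heval, pow_one, pow_one, pow_zero, pow_zero] at h2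
    rw [h2]
    have h3 : slot a b (1 : Matrix n n ℂ) 1 = fun _ => 1 := by
      funext x
      rcases x with x | x
      · rfl
      · simp [slot]
    rw [h3, actF_one]

end aux

end MH
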