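import Pool.Agent.Helper2.NT.Base

/-!
Project NT (MP_b8862a_ag): a tensor killed by the tensor Lie algebra of the powers of a neat matrix is fixed by the matrix.
-/

set_option linter.unusedSectionVars false

open Matrix

namespace MH

variable {n : Type*} [Fintype n] [DecidableEq n]

/-- the eigenvalues of `g` generate a torsion free group -/
def IsNeat (g : GL n ℂ) : Prop :=
  ∀ z ∈ Subgroup.closure {μ : ℂˣ | Module.End.HasEigenvalue (Matrix.toLin' (g : Matrix n n ℂ)) (μ : ℂ)},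
    ∀ N : ℕ, 0 < N → z ^ N = 1 → z = 1

/-- the Jordan decomposition in an eigenbasis of the semisimple part -/
structure JDat (g : GL n ℂ) (P Pi u u' : Matrix n n ℂ) (μ : n → ℂˣ) : Prop where
  pq : P * Pi = 1
  qp : Pi * P = 1
  g_eq : Pi * (g : Matrix n n ℂ) * P = Matrix.diagonal (fun i => (μ i : ℂ)) * u
  g_inv : Pi * ((g⁻¹ : GL n ℂ) : Matrix n n ℂ) * P = Matrix.diagonal (fun i => (((μ i)⁻¹ : ℂˣ) : ℂ)) * u'
  comm : Commute (Matrix.diagonal (fun i => (μ i : ℂ))) u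
  comm' : Commute (Matrix.diagonal (fun i => (((μ i)⁻¹ : ℂˣ) : ℂ))) u'
  uu : u * u' = 1
  uu' : u' * u = 1
  nil : IsNilpotent (u - 1)
  nil' : IsNilpotent (u' - 1)

theorem exists_JDat (g : GL n ℂ) : ∃ (P Pi u u' : Matrix n n ℂ) (μ : n → ℂˣ), JDat g P Pi u u' μ := by
  obtain ⟨P, Pi, u, μ, hPQ, hQP, hg, hcu, hun⟩ := exists_jordan_nt g
  have hgi' : (g : Matrix n n ℂ) * ((g⁻¹ : GL n ℂ) : Matrix n n ℂ) = 1 := by
    rw [← Units.val_mul, mul_inv_cancel, Units.val_one]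
  set D : Matrix n n ℂ := Matrix.diagonal (fun i => (μ i : ℂ)) with hD
  set D' : Matrix n n ℂ := Matrix.diagonal (fun i => (((μ i)⁻¹ : ℂˣ) : ℂ)) with hD'
  have hDD : D * D' = 1 := by
    rw [hD, hD', Matrix.diagonal_mul_diagonal, ← Matrix.diagonal_one]
    congr 1
    funext i
    rw [← Units.val_mul, mul_inv_cancel, Units.val_one]
  have hDD' : D' * D = 1 := by
    rw [hD, hD', Matrix.diagonal_mul_diagonal, ← Matrix.diagonal_one]
    congr 1
    funext i
    rw [← Units.val_mul, inv_mul_cancel, Units.val_one]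
  have huu : IsUnit u := by
    have h1 : u = 1 + (u - 1) := by abel
    rw [h1]
    exact hun.isUnit_one_add
  obtain ⟨u', hu1, hu2⟩ := huu.exists_right_inv.imp fun u' h => (⟨h, mul_eq_one_comm.1 h⟩ : u * u' = 1 ∧ u' * u = 1)
  have hun' : IsNilpotent (u' - 1) := by
    have h1 : u' - 1 = (u - 1) * (-u') := by
      rw [mul_neg, sub_mul, hu1, one_mul]
      abel
    rw [h1]
    refine Commute.isNilpotent_mul_right ?_ hun
    refine Commute.neg_right ?_
    change (u - 1) * u' = u' * (u - 1)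
    rw [sub_mul, mul_sub, hu1, hu2, one_mul, mul_one]
  have h3' : D' * u' = u' * D' := by
    calc D' * u' = u' * (u * D') * u' := by
          rw [← mul_assoc u' u, hu2, one_mul]
      _ = u' * (D' * (D * u) * D') * u' := by rw [← mul_assoc D' D u, hDD', one_mul]
      _ = u' * (D' * (u * D) * D') * u' := by rw [hcu]
      _ = u' * D' * u * (D * D') * u' := by simp only [mul_assoc]
      _ = u' * D' * (u * u') := by rw [hDD, mul_one, mul_assoc]
      _ = u' * D' := by rw [hu1, mul_one]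
  refine ⟨P, Pi, u, u', μ, hPQ, hQP, hg, ?_, hcu, h3', hu1, hu2, hun, hun'⟩
  rw [← hD', h3']
  have h4 : (Pi * (g : Matrix n n ℂ) * P) * (Pi * ((g⁻¹ : GL n ℂ) : Matrix n n ℂ) * P) = 1 := by
    calc (Pi * (g : Matrix n n ℂ) * P) * (Pi * ((g⁻¹ : GL n ℂ) : Matrix n n ℂ) * P) =
          Pi * (g : Matrix n n ℂ) * (P * Pi) * ((g⁻¹ : GL n ℂ) : Matrix n n ℂ) * P := by
          simp only [mul_assoc]
      _ = Pi * ((g : Matrix n n ℂ) * ((g⁻¹ : GL n ℂ) : Matrix n n ℂ)) * P := by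
          rw [hPQ, mul_one]; simp only [mul_assoc]
      _ = 1 := by rw [hgi', mul_one, hQP]
  rw [hg] at h4
  calc Pi * ((g⁻¹ : GL n ℂ) : Matrix n n ℂ) * P =
        u' * (D' * D) * u * (Pi * ((g⁻¹ : GL n ℂ) : Matrix n n ℂ) * P) := by
        rw [hDD', mul_one, hu2, one_mul]
    _ = u' * D' * ((D * u) * (Pi * ((g⁻¹ : GL n ℂ) : Matrix n n ℂ) * P)) := by simp only [mul_assoc]
    _ = u' * D' := by rw [h4, mul_one]

section jdat

variable {g : GL n ℂ} {P Pi u u' : Matrix n n ℂ} {μ : n → ℂˣ}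

/-- the diagonal entries of the semisimple part are eigenvalues -/
theorem JDat.hasEigenvalue (J : JDat g P Pi u u' μ) (i : n) :
    Module.End.HasEigenvalue (Matrix.toLin' (g : Matrix n n ℂ)) (μ i : ℂ) := by
  set D : Matrix n n ℂ := Matrix.diagonal (fun i => (μ i : ℂ)) with hD
  have h1 : ¬ IsUnit ((g : Matrix n n ℂ) - (μ i : ℂ) • (1 : Matrix n n ℂ)) := by
    intro h
    have h2 : IsUnit (Pi * ((g : Matrix n n ℂ) - (μ i : ℂ) • 1) * P) := by
      have hP : IsUnit P := ⟨⟨P, Pi, J.pq, J.qp⟩, rfl⟩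
      have hPi : IsUnit Pi := ⟨⟨Pi, P, J.qp, J.pq⟩, rfl⟩
      exact (hPi.mul h).mul hP
    have h3 : Pi * ((g : Matrix n n ℂ) - (μ i : ℂ) • 1) * P = D * u - (μ i : ℂ) • 1 := by
      rw [mul_sub, sub_mul, J.g_eq, mul_smul_comm, mul_one, smul_mul_assoc, J.qp]
    rw [h3] at h2
    have hDu : Commute D (u - 1) := J.comm.sub_right (Commute.one_right _)
    have h5 : IsNilpotent (D * (u - 1)) := Commute.isNilpotent_mul_left hDu J.nil
    have h6 : IsUnit (D * u - (μ i : ℂ) • 1 - D * (u - 1)) := by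
      rw [sub_eq_add_neg]
      refine IsNilpotent.isUnit_add_left_of_commute h5.neg h2 ?_
      refine Commute.neg_left ?_
      refine Commute.sub_right ?_ ((Commute.one_right _).smul_right _)
      refine Commute.mul_right ?_ ?_
      · exact Commute.mul_left (Commute.refl D) hDu.symm
      · exact Commute.mul_left J.comm ((Commute.refl u).sub_left (Commute.one_left _))
    have h7 : D * u - (μ i : ℂ) • 1 - D * (u - 1) = Matrix.diagonal (fun x => (μ x : ℂ) - (μ i : ℂ)) := by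
      rw [mul_sub, mul_one, Matrix.smul_one_eq_diagonal, hD]
      have h8 : ∀ A B C : Matrix n n ℂ, A - B - (A - C) = C - B := fun A B C => by abel
      rw [h8, Matrix.diagonal_sub]
    rw [h7, Matrix.isUnit_diagonal, _root_.Pi.isUnit_iff] at h6
    have := h6 i
    rw [sub_self] at this
    exact not_isUnit_zero this
  rw [Module.End.hasEigenvalue_iff_mem_spectrum, spectrum.mem_iff]
  intro h2
  apply h1
  have h3 : algebraMap ℂ (Module.End ℂ (n → ℂ)) (μ i : ℂ) - Matrix.toLin' (g : Matrix n n ℂ) =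
      Matrix.toLinAlgEquiv' ((μ i : ℂ) • (1 : Matrix n n ℂ) - (g : Matrix n n ℂ)) := by
    rw [map_sub, map_smul, map_one, Algebra.algebraMap_eq_smul_one]
    rfl
  rw [h3] at h2
  have h4 := (isUnit_map_iff (Matrix.toLinAlgEquiv' (R := ℂ) (n := n)) _).1 h2
  have h5 : (g : Matrix n n ℂ) - (μ i : ℂ) • (1 : Matrix n n ℂ) = -((μ i : ℂ) • (1 : Matrix n n ℂ) - (g : Matrix n n ℂ)) := by
    abel
  rw [h5]
  exact h4.neg

/-- the weight of a multi-index -/
def wt (a b : ℕ) (μ : n → ℂˣ) (i : Fin a ⊕ Fin b → n) : ℂˣ :=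
  ∏ k, (Sum.elim (fun _ => μ) (fun _ => fun x => (μ x)⁻¹) : Fin a ⊕ Fin b → n → ℂˣ) k (i k)

theorem JDat.wt_mem (J : JDat g P Pi u u' μ) (a b : ℕ) (i : Fin a ⊕ Fin b → n) : wt a b μ i ∈
    Subgroup.closure {μ : ℂˣ | Module.End.HasEigenvalue (Matrix.toLin' (g : Matrix n n ℂ)) (μ : ℂ)} := by
  refine Subgroup.prod_mem _ fun k _ => ?_
  rcases k with k | k
  · exact Subgroup.subset_closure (J.hasEigenvalue _)
  · exact Subgroup.inv_mem _ (Subgroup.subset_closure (J.hasEigenvalue _))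

theorem slot_mul_nt (a b : ℕ) (A B A' B' : Matrix n n ℂ) (t : (Fin a ⊕ Fin b → n) → ℂ) :
    actF (slot a b A A') (actF (slot a b B B') t) = actF (slot a b (A * B) (B' * A')) t := by
  rw [actF_mul]
  congr 1
  funext k
  rcases k with k | k
  · rfl
  · simp only [slot, Sum.elim_inr]
    rw [Matrix.transpose_mul]

theorem slot_one_nt (a b : ℕ) (t : (Fin a ⊕ Fin b → n) → ℂ) : actF (slot a b (1 : Matrix n n ℂ) 1) t = t := by
  have h3 : slot a b (1 : Matrix n n ℂ) 1 = fun _ => 1 := by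
    funext x
    rcases x with x | x
    · rfl
    · simp [slot]
  rw [h3, actF_one]

theorem act_wt (a b : ℕ) (N : ℕ) (t : (Fin a ⊕ Fin b → n) → ℂ) (i : Fin a ⊕ Fin b → n) :
    actF (slot a b (Matrix.diagonal (fun i => (μ i : ℂ)) ^ N) (Matrix.diagonal (fun i => (((μ i)⁻¹ : ℂˣ) : ℂ)) ^ N)) t i =
      ((wt a b μ i : ℂˣ) : ℂ) ^ N * t i := by
  have h1 : slot a b (Matrix.diagonal (fun i => (μ i : ℂ)) ^ N) (Matrix.diagonal (fun i => (((μ i)⁻¹ : ℂˣ) : ℂ)) ^ N) =
      fun k => Matrix.diagonal (fun x => (((Sum.elim (fun _ => μ) (fun _ => fun x => (μ x)⁻¹) :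
        Fin a ⊕ Fin b → n → ℂˣ) k x : ℂˣ) : ℂ) ^ N) := by
    funext k
    rcases k with k | k
    · simp only [slot, Sum.elim_inl, Matrix.diagonal_pow]
      rfl
    · simp only [slot, Sum.elim_inr, Matrix.diagonal_pow, Matrix.diagonal_transpose]
      rfl
  rw [h1, act_diag_nt, Finset.prod_pow, wt, Units.coe_prod]

theorem dact_wt (a b : ℕ) (φ : Additive ℂˣ →+ ℚ) (t : (Fin a ⊕ Fin b → n) → ℂ) (i : Fin a ⊕ Fin b → n) :
    dL a b t (Matrix.diagonal fun x => ((φ (Additive.ofMul (μ x)) : ℚ) : ℂ)) i =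
      ((φ (Additive.ofMul (wt a b μ i)) : ℚ) : ℂ) * t i := by
  set d : n → ℂ := fun x => ((φ (Additive.ofMul (μ x)) : ℚ) : ℂ) with hd
  have h1 : lslot a b (Matrix.diagonal d) = fun k => Matrix.diagonal
      ((Sum.elim (fun _ => d) (fun _ => fun x => -d x) : Fin a ⊕ Fin b → n → ℂ) k) := by
    funext k
    rcases k with k | k
    · rfl
    · change -(Matrix.diagonal d)ᵀ = Matrix.diagonal (fun x => -d x)
      rw [Matrix.diagonal_transpose, Matrix.diagonal_neg]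
  rw [dL_apply, h1, dact_diag_nt]
  congr 1
  rw [wt, ofMul_prod, map_sum, Rat.cast_sum]
  refine Finset.sum_congr rfl fun k _ => ?_
  rcases k with k | k
  · rfl
  · change -d _ = ((φ (Additive.ofMul ((μ _)⁻¹)) : ℚ) : ℂ)
    rw [ofMul_inv, map_neg, Rat.cast_neg]

/-- the Lie algebra action in the eigenbasis -/
theorem JDat.dL_conj (J : JDat g P Pi u u' μ) (a b : ℕ) (t : (Fin a ⊕ Fin b → n) → ℂ) (X : Matrix n n ℂ) :
    dL a b t (P * X * Pi) = actF (slot a b P Pi) (dL a b (actF (slot a b Pi P) t) X) := by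
  rw [dL_apply, dL_apply, ← dact_conj (slot a b P Pi) (slot a b Pi P) (by
    rintro (k | k)
    · exact J.pq
    · change Piᵀ * Pᵀ = 1
      rw [← Matrix.transpose_mul, J.pq, Matrix.transpose_one])]
  congr 1
  funext k
  rcases k with k | k
  · rfl
  · change -(P * X * Pi)ᵀ = Piᵀ * -Xᵀ * Pᵀ
    rw [Matrix.transpose_mul, Matrix.transpose_mul, mul_neg, neg_mul, mul_assoc]

theorem JDat.dL_zero_iff (J : JDat g P Pi u u' μ) (a b : ℕ) (t : (Fin a ⊕ Fin b → n) → ℂ) (X : Matrix n n ℂ) :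
    dL a b t (P * X * Pi) = 0 ↔ dL a b (actF (slot a b Pi P) t) X = 0 := by
  rw [J.dL_conj]
  constructor
  · intro h
    have h1 := congrArg (actF (slot a b Pi P)) h
    rwa [slot_mul_nt, J.qp, slot_one_nt, actF_zero] at h1
  · intro h
    rw [h, actF_zero]

theorem JDat.pow_eq (J : JDat g P Pi u u' μ) (N : ℕ) : Pi * ((g ^ N : GL n ℂ) : Matrix n n ℂ) * P =
    Matrix.diagonal (fun i => (μ i : ℂ)) ^ N * u ^ N := by
  rw [← J.comm.mul_pow, ← J.g_eq]
  induction N with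
  | zero => rw [pow_zero, pow_zero, Units.val_one, mul_one, J.qp]
  | succ N ih =>
    rw [pow_succ, pow_succ, ← ih, Units.val_mul]
    calc Pi * (((g ^ N : GL n ℂ) : Matrix n n ℂ) * (g : Matrix n n ℂ)) * P =
          Pi * ((g ^ N : GL n ℂ) : Matrix n n ℂ) * 1 * (g : Matrix n n ℂ) * P := by
          simp only [mul_assoc, one_mul]
      _ = Pi * ((g ^ N : GL n ℂ) : Matrix n n ℂ) * (P * Pi) * (g : Matrix n n ℂ) * P := by rw [J.pq]
      _ = _ := by simp only [mul_assoc]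

/-- the inverse element -/
theorem JDat.inv (J : JDat g P Pi u u' μ) : JDat g⁻¹ P Pi u' u (fun i => (μ i)⁻¹) where
  pq := J.pq
  qp := J.qp
  g_eq := J.g_inv
  g_inv := by
    simp only [inv_inv]
    exact J.g_eq
  comm := J.comm'
  comm' := by
    simp only [inv_inv]
    exact J.comm
  uu := J.uu'
  uu' := J.uu
  nil := J.nil'
  nil' := J.nil

/-- the action of a power in the eigenbasis -/
theorem JDat.act_pow (J : JDat g P Pi u u' μ) (a b : ℕ) (N : ℕ) (t : (Fin a ⊕ Fin b → n) → ℂ) :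
    actF (slot a b Pi P) (actF (slot a b ((g ^ N : GL n ℂ) : Matrix n n ℂ) (((g ^ N)⁻¹ : GL n ℂ) : Matrix n n ℂ)) t) =
      actF (slot a b (Matrix.diagonal (fun i => (μ i : ℂ)) ^ N) (Matrix.diagonal (fun i => (((μ i)⁻¹ : ℂˣ) : ℂ)) ^ N))
        (actF (slot a b (u ^ N) (u' ^ N)) (actF (slot a b Pi P) t)) := by
  rw [slot_mul_nt, slot_mul_nt, slot_mul_nt]
  have h1 := J.pow_eq N
  have h2 := J.inv.pow_eq N
  rw [inv_pow] at h2
  congr 2
  · calc Pi * ((g ^ N : GL n ℂ) : Matrix n n ℂ) = Pi * ((g ^ N : GL n ℂ) : Matrix n n ℂ) * (P * Pi) := by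
          rw [J.pq, mul_one]
      _ = Pi * ((g ^ N : GL n ℂ) : Matrix n n ℂ) * P * Pi := by simp only [mul_assoc]
      _ = _ := by rw [h1, mul_assoc]
  · have h3 : Commute (Matrix.diagonal (fun i => (((μ i)⁻¹ : ℂˣ) : ℂ)) ^ N) (u' ^ N) := J.comm'.pow_pow N N
    calc (((g ^ N)⁻¹ : GL n ℂ) : Matrix n n ℂ) * P = (P * Pi) * (((g ^ N)⁻¹ : GL n ℂ) : Matrix n n ℂ) * P := by
          rw [J.pq, one_mul]
      _ = P * (Pi * (((g ^ N)⁻¹ : GL n ℂ) : Matrix n n ℂ) * P) := by simp only [mul_assoc]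
      _ = _ := by rw [h2, h3.eq]

/-- a tensor fixed by a power: the weights are roots of unity -/
theorem JDat.wt_pow (J : JDat g P Pi u u' μ) {a b : ℕ} {N : ℕ} {t : (Fin a ⊕ Fin b → n) → ℂ}
    (ht : actF (slot a b ((g ^ N : GL n ℂ) : Matrix n n ℂ) (((g ^ N)⁻¹ : GL n ℂ) : Matrix n n ℂ)) t = t)
    {i : Fin a ⊕ Fin b → n} (hi : actF (slot a b Pi P) t i ≠ 0) : wt a b μ i ^ N = 1 := by
  refine core_nt (Gk := slot a b (g : Matrix n n ℂ) ((g⁻¹ : GL n ℂ) : Matrix n n ℂ)) (Pk := slot a b P Pi)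
    (Qk := slot a b Pi P) (Uk := slot a b u u')
    (dk := (Sum.elim (fun _ => μ) (fun _ => fun x => (μ x)⁻¹) : Fin a ⊕ Fin b → n → ℂˣ)) ?_ ?_ ?_ ?_ ?_ (N := N)
    (t := t) ?_ (i := i) hi
  · rintro (k | k)
    · exact J.pq
    · change Piᵀ * Pᵀ = 1
      rw [← Matrix.transpose_mul, J.pq, Matrix.transpose_one]
  · rintro (k | k)
    · exact J.qp
    · change Pᵀ * Piᵀ = 1
      rw [← Matrix.transpose_mul, J.qp, Matrix.transpose_one]
  · rintro (k | k)
    · exact J.g_eq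
    · change Pᵀ * (((g⁻¹ : GL n ℂ) : Matrix n n ℂ))ᵀ * Piᵀ =
        Matrix.diagonal (fun i => (((μ i)⁻¹ : ℂˣ) : ℂ)) * u'ᵀ
      have h5 := congrArg Matrix.transpose (J.g_inv.trans J.comm'.eq)
      rw [Matrix.transpose_mul, Matrix.transpose_mul, Matrix.transpose_mul] at h5
      rw [mul_assoc, h5, Matrix.diagonal_transpose]
  · rintro (k | k)
    · exact J.comm
    · change Commute (Matrix.diagonal (fun i => (((μ i)⁻¹ : ℂˣ) : ℂ))) u'ᵀ
      have h5 := congrArg Matrix.transpose J.comm'.eq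
      rw [Matrix.transpose_mul, Matrix.transpose_mul, Matrix.diagonal_transpose] at h5
      exact h5.symm
  · rintro (k | k)
    · exact J.nil
    · obtain ⟨m, hm⟩ := J.nil'
      refine ⟨m, ?_⟩
      change (u'ᵀ - 1) ^ m = 0
      rw [← Matrix.transpose_one, ← Matrix.transpose_sub, ← Matrix.transpose_pow, hm, Matrix.transpose_zero]
  · have h3 : (fun k => slot a b (g : Matrix n n ℂ) ((g⁻¹ : GL n ℂ) : Matrix n n ℂ) k ^ N) =
        slot a b ((g ^ N : GL n ℂ) : Matrix n n ℂ) (((g ^ N)⁻¹ : GL n ℂ) : Matrix n n ℂ) := by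
      funext k
      rcases k with k | k
      · exact (Units.val_pow_eq_pow_val g N).symm
      · change ((((g⁻¹ : GL n ℂ) : Matrix n n ℂ))ᵀ) ^ N = ((((g ^ N)⁻¹ : GL n ℂ) : Matrix n n ℂ))ᵀ
        rw [← inv_pow, Units.val_pow_eq_pow_val, Matrix.transpose_pow]
    rw [h3]
    exact ht

/-- a tensor fixed by a power is fixed by the same power of the unipotent part -/
theorem JDat.un_pow (J : JDat g P Pi u u' μ) {a b : ℕ} {N : ℕ} {t : (Fin a ⊕ Fin b → n) → ℂ}
    (ht : actF (slot a b ((g ^ N : GL n ℂ) : Matrix n n ℂ) (((g ^ N)⁻¹ : GL n ℂ) : Matrix n n ℂ)) t = t) :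
    actF (slot a b (u ^ N) (u' ^ N)) (actF (slot a b Pi P) t) = actF (slot a b Pi P) t := by
  have h1 := J.act_pow a b N t
  rw [ht] at h1
  funext i
  have h2 := congrFun h1 i
  rw [act_wt] at h2
  by_cases hi : actF (slot a b Pi P) t i = 0
  · rw [hi] at h2 ⊢
    rcases mul_eq_zero.1 h2.symm with h3 | h3
    · exact absurd h3 (pow_ne_zero _ (Units.ne_zero _))
    · exact h3
  · have h3 := J.wt_pow ht hi
    rw [← Units.val_pow_eq_pow_val, h3, Units.val_one, one_mul] at h2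
    exact h2.symm

theorem exists_pow_of_tate {a b : ℕ} {t : (Fin a ⊕ Fin b → n) → ℂ} (ht : IsTateTensor (Subgroup.zpowers g) a b t) :
    ∃ N : ℕ, 0 < N ∧
      actF (slot a b ((g ^ N : GL n ℂ) : Matrix n n ℂ) (((g ^ N)⁻¹ : GL n ℂ) : Matrix n n ℂ)) t = t := by
  obtain ⟨D', h1, h2, h3⟩ := ht
  obtain ⟨N, hN, _, hN2⟩ := Subgroup.exists_pow_mem_of_relIndex_ne_zero h2 (Subgroup.mem_zpowers g)
  exact ⟨N, hN, h3 _ hN2.1⟩

end jdat

theorem LG_mono_nt {Γ Δ : Subgroup (GL n ℂ)} (h : Δ ≤ Γ) {X : Matrix n n ℂ} (hX : X ∈ LG Δ) : X ∈ LG Γ := by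
  intro a b t ht
  obtain ⟨Γ', h1, h2, h3⟩ := ht
  refine hX a b t ⟨Γ' ⊓ Δ, inf_le_right, ?_, fun g hg => h3 g hg.1⟩
  rw [Subgroup.inf_relIndex_right]
  exact fun h4 => h2 (Subgroup.relIndex_eq_zero_of_le_right h h4)

/-- **NT.** A tensor killed by the tensor Lie algebra of the powers of a neat matrix is fixed by the matrix. -/
theorem IsNeat.fix {g : GL n ℂ} (hg : IsNeat g) {a b : ℕ} {t : (Fin a ⊕ Fin b → n) → ℂ}
    (h : ∀ X ∈ LG (Subgroup.zpowers g), dL a b t X = 0) :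
    actF (slot a b (g : Matrix n n ℂ) ((g⁻¹ : GL n ℂ) : Matrix n n ℂ)) t = t := by
  obtain ⟨P, Pi, u, u', μ, J⟩ := exists_JDat g
  obtain ⟨X, hX⟩ := exists_log_un J.uu J.uu' J.nil
  -- the semisimple part
  have h1 : ∀ φ : Additive ℂˣ →+ ℚ,
      P * (Matrix.diagonal fun x => ((φ (Additive.ofMul (μ x)) : ℚ) : ℂ)) * Pi ∈ LG (Subgroup.zpowers g) := by
    intro φ a b t ht
    obtain ⟨N, hN, ht⟩ := exists_pow_of_tate ht
    rw [J.dL_zero_iff]
    funext i
    rw [dact_wt]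
    by_cases hi : actF (slot a b Pi P) t i = 0
    · rw [hi, mul_zero]
      rfl
    · have h2 := J.wt_pow ht hi
      have h7 : (N : ℕ) • φ (Additive.ofMul (wt a b μ i)) = 0 := by
        rw [← map_nsmul, ← ofMul_pow, h2, ofMul_one, map_zero]
      rcases smul_eq_zero.1 h7 with h8 | h8
      · omega
      · rw [h8, Rat.cast_zero, zero_mul]
        rfl
  -- the unipotent part
  have h2 : P * X * Pi ∈ LG (Subgroup.zpowers g) := by
    intro a b t ht
    obtain ⟨N, hN, ht⟩ := exists_pow_of_tate ht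
    rw [J.dL_zero_iff]
    exact (hX a b _).1 N hN (J.un_pow ht)
  have h3 : actF (slot a b u u') (actF (slot a b Pi P) t) = actF (slot a b Pi P) t := by
    refine (hX a b _).2 ?_
    rw [← J.dL_zero_iff]
    exact h _ h2
  have h4 : ∀ i, actF (slot a b Pi P) t i ≠ 0 → wt a b μ i = 1 := by
    intro i hi
    have h5 : ∀ φ : Additive ℂˣ →+ ℚ, φ (Additive.ofMul (wt a b μ i)) = 0 := by
      intro φ
      have h6 := h _ (h1 φ)
      rw [J.dL_zero_iff] at h6
      have h7 := congrFun h6 i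
      rw [dact_wt] at h7
      rcases mul_eq_zero.1 h7 with h8 | h8
      · exact_mod_cast h8
      · exact absurd h8 hi
    by_contra hne
    have h6 : ∀ N : ℕ, 0 < N → ((wt a b μ i : ℂˣ) : ℂ) ^ N ≠ 1 := by
      intro N hN h7
      refine hne (hg _ (J.wt_mem a b i) N hN (Units.ext ?_))
      rw [Units.val_pow_eq_pow_val, h7, Units.val_one]
    obtain ⟨φ, hφ⟩ := exists_phi_nt (Units.ne_zero _) h6
    apply hφ
    rw [Units.mk0_val]
    exact h5 φ
  have h5 := J.act_pow a b 1 t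
  rw [pow_one, pow_one, pow_one, pow_one, pow_one, h3] at h5
  have h6 : actF (slot a b (Matrix.diagonal (fun i => (μ i : ℂ))) (Matrix.diagonal (fun i => (((μ i)⁻¹ : ℂˣ) : ℂ))))
      (actF (slot a b Pi P) t) = actF (slot a b Pi P) t := by
    funext i
    have h7 := act_wt (μ := μ) a b 1 (actF (slot a b Pi P) t) i
    rw [pow_one, pow_one, pow_one] at h7
    rw [h7]
    by_cases hi : actF (slot a b Pi P) t i = 0
    · rw [hi, mul_zero]
    · rw [h4 i hi, Units.val_one, one_mul]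
  rw [h6] at h5
  have h7 := congrArg (actF (slot a b P Pi)) h5
  rwa [slot_mul_nt, J.pq, slot_one_nt, slot_mul_nt, J.pq, slot_one_nt] at h7

/-- A tensor killed by the tensor Lie algebra of `Γ` is fixed by the neat elements of `Γ`. -/
theorem fix_of_kill {Γ : Subgroup (GL n ℂ)} {a b : ℕ} {t : (Fin a ⊕ Fin b → n) → ℂ}
    (h : ∀ X ∈ LG Γ, dL a b t X = 0) {g : GL n ℂ} (hg : g ∈ Γ) (hn : IsNeat g) :
    actF (slot a b (g : Matrix n n ℂ) ((g⁻¹ : GL n ℂ) : Matrix n n ℂ)) t = t :=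
  hn.fix fun X hX => h X (LG_mono_nt ((Subgroup.zpowers_le).2 hg) hX)

/-- If some subgroup of finite index consists of neat elements, the tensors killed by the tensor Lie algebra are the
Tate tensors. -/
theorem tate_iff_kill {Γ Γ' : Subgroup (GL n ℂ)} (h1 : Γ' ≤ Γ) (h2 : Γ'.relIndex Γ ≠ 0) (h3 : ∀ g ∈ Γ', IsNeat g)
    {a b : ℕ} {t : (Fin a ⊕ Fin b → n) → ℂ} : IsTateTensor Γ a b t ↔ ∀ X ∈ LG Γ, dL a b t X = 0 :=
  ⟨fun ht _ hX => hX a b t ht, fun h => ⟨Γ', h1, h2, fun g hg => fix_of_kill h (h1 hg) (h3 g hg)⟩⟩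

end MH
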